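import Pool.Agent.helper10.OM.SpecG

/-! # Row om:GSD (MP_bf63dc_nt): the smooth part, for arbitrary sets of slopes -/

set_option autoImplicit false

namespace Pool.Agent.OM

open Finset Real Pool.Agent.AT Pool.Agent.helper85.FC

theorem GSD_mem {R Y : ℕ} {x : ℤ} : x ∈ XX R Y ↔ -(R : ℤ) ≤ x ∧ x < Y + R := by
  unfold XX
  rw [Finset.mem_Ico]

/-- support of the averages -/
theorem GSD_supp (M T Y : ℕ) (f : ℤ → ℝ) (hs : ∀ x, x ∉ XX 0 Y → f x = 0) (x : ℤ)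
    (hx : x < -((M : ℤ) * T) ∨ (Y : ℤ) ≤ x) : sm M T f x = 0 := by
  unfold sm
  rw [Finset.sum_eq_zero, zero_div]
  intro τ hτ
  rw [Finset.mem_range] at hτ
  apply hs
  rw [GSD_mem]
  have h1 : (M : ℤ) * τ ≤ M * T := mul_le_mul_of_nonneg_left (by exact_mod_cast hτ.le) (by positivity)
  have h2 : (0 : ℤ) ≤ (M : ℤ) * τ := by positivity
  rintro ⟨h3, h4⟩
  push_cast at h3 h4
  rcases hx with h5 | h5 <;> linarith

/-- one shift -/
theorem GSD_one (h1 : SHF_stmt) (h2 : SML_stmt) (M T s R Y : ℕ) (hT : 1 ≤ T) (hs : s ≤ T) (hR : 2 * (M * T) ≤ R)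
    (f : ℤ → ℝ) (hf : ∀ x, |f x| ≤ 1) (hfs : ∀ x, x ∉ XX 0 Y → f x = 0) (g : ℤ → ℝ) (hg : ∀ v, |g v| ≤ 1) (p c : ℤ) :
    |∑ x ∈ XX R Y, (g (p * x - c) - g (p * x - c + p * (M * s))) * sm M T f x| ≤ 2 * s * Y / T := by
  have hA : (0 : ℤ) ≤ (M : ℤ) * s := by positivity
  have hA2 : (M : ℤ) * s ≤ M * T := mul_le_mul_of_nonneg_left (by exact_mod_cast hs) (by positivity)
  have hR' : 2 * ((M : ℤ) * T) ≤ R := by exact_mod_cast hR
  have e1 := h1 (M * T) R Y ((M : ℤ) * s) (by rw [abs_of_nonneg hA]; push_cast; linarith)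
    (fun x => g (p * x - c) * sm M T f (x - M * s)) (by
      intro x hx
      have : sm M T f (x - M * s) = 0 := by
        apply GSD_supp M T Y f hfs
        by_contra h3
        push Not at h3
        apply hx
        rw [GSD_mem]
        push_cast
        constructor <;> linarith [h3.1, h3.2]
      show g (p * x - c) * sm M T f (x - M * s) = 0
      rw [this, mul_zero])
  have e2 : ∑ x ∈ XX R Y, (g (p * x - c) - g (p * x - c + p * (M * s))) * sm M T f x =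
      ∑ x ∈ XX R Y, g (p * x - c) * (sm M T f x - sm M T f (x - M * s)) := by
    have e3 : ∑ x ∈ XX R Y, g (p * x - c + p * (M * s)) * sm M T f x =
        ∑ x ∈ XX R Y, g (p * x - c) * sm M T f (x - M * s) := by
      rw [← e1]
      apply Finset.sum_congr rfl
      intro x _
      show g (p * x - c + p * (M * s)) * sm M T f x = g (p * (x + M * s) - c) * sm M T f (x + M * s - M * s)
      rw [add_sub_cancel_right]
      congr 2
      ring
    have e4 : ∀ x ∈ XX R Y, (g (p * x - c) - g (p * x - c + p * (M * s))) * sm M T f x =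
        g (p * x - c) * sm M T f x - g (p * x - c + p * (M * s)) * sm M T f x := fun x _ => by ring
    rw [Finset.sum_congr rfl e4, Finset.sum_sub_distrib, e3, ← Finset.sum_sub_distrib]
    apply Finset.sum_congr rfl
    intro x _
    ring
  rw [e2]
  refine (Finset.abs_sum_le_sum_abs _ _).trans ?_
  refine (Finset.sum_le_sum fun x _ => ?_).trans (h2 M T s R Y hT hs f hf hfs)
  rw [abs_mul]
  calc |g (p * x - c)| * |sm M T f x - sm M T f (x - M * s)| ≤ 1 * |sm M T f x - sm M T f (x - M * s)| :=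
        mul_le_mul_of_nonneg_right (hg _) (abs_nonneg _)
    _ = |sm M T f x - sm M T f (x - M * s)| := one_mul _

/-- the average over `t` -/
theorem GSD_avg (h1 : SHF_stmt) (h2 : SML_stmt) (M₁ b J T R Y : ℕ) (hM : 1 ≤ M₁) (hb : b ∣ M₁) (hJ : 1 ≤ J) (hT : 1 ≤ T)
    (hR : 3 * (M₁ * (J * M₁ * T)) ≤ R) (g : ℤ → ℝ) (hg : ∀ v, 0 ≤ g v ∧ g v ≤ 1)
    (f : ℤ → ℝ) (hf : ∀ x, |f x| ≤ 1) (hfs : ∀ x, x ∉ XX 0 Y → f x = 0) (c : ℤ) :
    |∑ x ∈ XX R Y, (g ((b : ℤ) * x - c) - sm (M₁ ^ 2) T g ((b : ℤ) * x - c)) * sm M₁ (J * M₁ * T) f x| ≤ 2 * Y / J := by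
  obtain ⟨k, hk⟩ := hb
  have hT0 : (0 : ℝ) < T := by exact_mod_cast hT
  have hJ0 : (0 : ℝ) < J := by exact_mod_cast hJ
  have hM0 : (0 : ℝ) < M₁ := by exact_mod_cast hM
  have hkM : k ≤ M₁ := by
    have hb1 : 1 ≤ b := by
      rcases Nat.eq_zero_or_pos b with h | h
      · rw [h, zero_mul] at hk
        omega
      · exact h
    rw [hk]
    exact Nat.le_mul_of_pos_left _ hb1
  have hT' : 1 ≤ J * M₁ * T := Nat.mul_pos (Nat.mul_pos hJ hM) hT
  have e1 : ∀ x : ℤ, g ((b : ℤ) * x - c) - sm (M₁ ^ 2) T g ((b : ℤ) * x - c) =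
      (∑ t ∈ range T, (g ((b : ℤ) * x - c) - g ((b : ℤ) * x - c + (b : ℤ) * ((M₁ : ℤ) * ((k * t : ℕ) : ℤ))))) / T := by
    intro x
    unfold sm
    rw [Finset.sum_sub_distrib, Finset.sum_const, Finset.card_range, nsmul_eq_mul, sub_div, mul_div_cancel_left₀ _ hT0.ne']
    congr 2
    apply Finset.sum_congr rfl
    intro t _
    congr 2
    have h5 : (M₁ : ℤ) = b * k := by exact_mod_cast hk
    have h6 : ((M₁ ^ 2 : ℕ) : ℤ) = (b : ℤ) * ((M₁ : ℤ) * k) := by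
      push_cast
      rw [pow_two]
      nth_rewrite 1 [h5]
      ring
    rw [h6]
    push_cast
    ring
  have e2 : ∑ x ∈ XX R Y, (g ((b : ℤ) * x - c) - sm (M₁ ^ 2) T g ((b : ℤ) * x - c)) * sm M₁ (J * M₁ * T) f x =
      (∑ t ∈ range T, ∑ x ∈ XX R Y, (g ((b : ℤ) * x - c) -
        g ((b : ℤ) * x - c + (b : ℤ) * ((M₁ : ℤ) * ((k * t : ℕ) : ℤ)))) * sm M₁ (J * M₁ * T) f x) / T := by
    rw [Finset.sum_comm, Finset.sum_div]
    apply Finset.sum_congr rfl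
    intro x _
    rw [e1, ← Finset.sum_mul]
    ring
  rw [e2, abs_div, abs_of_pos hT0, div_le_iff₀ hT0]
  refine (Finset.abs_sum_le_sum_abs _ _).trans ?_
  have h3 : ∀ t ∈ range T, |∑ x ∈ XX R Y, (g ((b : ℤ) * x - c) -
        g ((b : ℤ) * x - c + (b : ℤ) * ((M₁ : ℤ) * ((k * t : ℕ) : ℤ)))) * sm M₁ (J * M₁ * T) f x| ≤ 2 * Y / J := by
    intro t ht
    rw [Finset.mem_range] at ht
    have hs : k * t ≤ M₁ * T := Nat.mul_le_mul hkM ht.le
    have hs' : k * t ≤ J * M₁ * T := by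
      refine hs.trans ?_
      rw [mul_assoc]
      exact Nat.le_mul_of_pos_left _ hJ
    refine (GSD_one h1 h2 M₁ (J * M₁ * T) (k * t) R Y hT' hs' (by omega) f hf hfs g ?_ (b : ℤ) c).trans ?_
    · intro v
      rw [abs_of_nonneg (hg v).1]
      exact (hg v).2
    · have h4 : (((k * t : ℕ) : ℝ)) ≤ (M₁ : ℝ) * T := by exact_mod_cast hs
      have h5 : (((J * M₁ * T : ℕ) : ℝ)) = J * (M₁ : ℝ) * T := by push_cast; ring
      rw [h5, div_le_div_iff₀ (by positivity) hJ0]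
      have h6 : (0 : ℝ) ≤ 2 * Y * J := by positivity
      calc 2 * (((k * t : ℕ) : ℝ)) * Y * J = 2 * Y * J * ((k * t : ℕ) : ℝ) := by ring
        _ ≤ 2 * Y * J * ((M₁ : ℝ) * T) := mul_le_mul_of_nonneg_left h4 h6
        _ = 2 * Y * (J * (M₁ : ℝ) * T) := by ring
  refine (Finset.sum_le_sum h3).trans ?_
  rw [Finset.sum_const, Finset.card_range, nsmul_eq_mul]
  apply le_of_eq
  ring

theorem GSD_count (F : Finset ℕ) : 2 * #(FF F) ≤ (#F) ^ 2 := by
  have h1 : #((F ×ˢ F).filter (fun p => p.1 < p.2)) = #(FF F) := by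
    apply Finset.card_bij (fun p _ => (p.2, p.1))
    · intro p hp
      rw [Finset.mem_filter, Finset.mem_product] at hp
      unfold FF
      rw [Finset.mem_filter, Finset.mem_product]
      exact ⟨⟨hp.1.2, hp.1.1⟩, hp.2⟩
    · intro p _ p' _ h
      have h2 := congrArg Prod.fst h
      have h3 := congrArg Prod.snd h
      exact Prod.ext h3 h2
    · intro p hp
      unfold FF at hp
      rw [Finset.mem_filter, Finset.mem_product] at hp
      exact ⟨(p.2, p.1), Finset.mem_filter.2 ⟨Finset.mem_product.2 ⟨hp.1.2, hp.1.1⟩, hp.2⟩, rfl⟩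
  have h2 : Disjoint ((F ×ˢ F).filter (fun p => p.1 < p.2)) (FF F) := by
    rw [Finset.disjoint_left]
    intro p hp hp'
    unfold FF at hp'
    rw [Finset.mem_filter] at hp hp'
    exact lt_asymm hp.2 hp'.2
  have h3 : ((F ×ˢ F).filter (fun p => p.1 < p.2)) ∪ (FF F) ⊆ F ×ˢ F :=
    Finset.union_subset (Finset.filter_subset _ _) (Finset.filter_subset _ _)
  have h4 := Finset.card_le_card h3
  rw [Finset.card_union_of_disjoint h2, h1, Finset.card_product] at h4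
  rw [pow_two]
  omega

theorem GSD (h1 : SHF_stmt) (h2 : SML_stmt) (h3 : GRR_stmt) : GSD_stmt := by
  intro F H T J R Y hF hT hJ hR B φ ψ hB hφ hψ hsφ hsψ
  have hJ0 : (0 : ℝ) < J := by exact_mod_cast hJ
  have hM : 1 ≤ MH H := Nat.factorial_pos _
  have hψs : ∀ j : ℕ, ∑ y ∈ XX R Y, |ψ j y| ≤ Y := by
    intro j
    have e1 : ∑ y ∈ XX R Y, |ψ j y| = ∑ y ∈ (XX R Y).filter (fun y => y ∈ XX 0 Y), |ψ j y| := by
      rw [Finset.sum_filter]
      apply Finset.sum_congr rfl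
      intro y _
      split_ifs with h3
      · rfl
      · rw [hsψ j y h3, abs_zero]
    rw [e1]
    have h3 : ∑ y ∈ (XX R Y).filter (fun y => y ∈ XX 0 Y), |ψ j y| ≤ ∑ _y ∈ (XX R Y).filter (fun y => y ∈ XX 0 Y), (1 : ℝ) :=
      Finset.sum_le_sum fun y _ => hψ j y
    rw [Finset.sum_const, nsmul_eq_mul, mul_one] at h3
    refine h3.trans ?_
    have h4 : ((XX R Y).filter (fun y => y ∈ XX 0 Y)).card ≤ (XX 0 Y).card := by
      apply Finset.card_le_card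
      intro y hy
      exact (Finset.mem_filter.mp hy).2
    have h5 : (XX 0 Y).card = Y := by
      unfold XX
      rw [Int.card_Ico]
      simp
    rw [h5] at h4
    exact_mod_cast h4
  -- one pair
  have hone : ∀ r ∈ RR F, ∀ p : ℕ × ℕ, |∑ x ∈ XX R Y, ∑ y ∈ XX R Y, (B r ((r.2 : ℤ) * x - (r.1 : ℤ) * y) -
      PG (MH H ^ 2) T B r ((r.2 : ℤ) * x - (r.1 : ℤ) * y)) *
      (sm (MH H) (J * MH H * T) (φ p.1) x * ψ p.2 y)| ≤ Y * (2 * Y / J) := by
    intro r hr p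
    obtain ⟨g1, g2, g3, g4, -⟩ := (h3 F H hF).1 r hr
    have hdvd : r.2 ∣ MH H := by
      refine Nat.dvd_factorial g3 (g4.trans ?_)
      exact Nat.le_self_pow two_ne_zero H
    rw [Finset.sum_comm]
    refine (Finset.abs_sum_le_sum_abs _ _).trans ?_
    calc ∑ y ∈ XX R Y, |∑ x ∈ XX R Y, (B r ((r.2 : ℤ) * x - (r.1 : ℤ) * y) -
      PG (MH H ^ 2) T B r ((r.2 : ℤ) * x - (r.1 : ℤ) * y)) * (sm (MH H) (J * MH H * T) (φ p.1) x * ψ p.2 y)|
        ≤ ∑ y ∈ XX R Y, |ψ p.2 y| * (2 * Y / J) := by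
          apply Finset.sum_le_sum
          intro y _
          have e5 : ∑ x ∈ XX R Y, (B r ((r.2 : ℤ) * x - (r.1 : ℤ) * y) -
              PG (MH H ^ 2) T B r ((r.2 : ℤ) * x - (r.1 : ℤ) * y)) * (sm (MH H) (J * MH H * T) (φ p.1) x * ψ p.2 y) =
              ψ p.2 y * ∑ x ∈ XX R Y, (B r ((r.2 : ℤ) * x - (r.1 : ℤ) * y) -
              sm (MH H ^ 2) T (B r) ((r.2 : ℤ) * x - (r.1 : ℤ) * y)) * sm (MH H) (J * MH H * T) (φ p.1) x := by
            rw [Finset.mul_sum]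
            apply Finset.sum_congr rfl
            intro x _
            unfold PG
            ring
          rw [e5, abs_mul]
          exact mul_le_mul_of_nonneg_left (GSD_avg h1 h2 (MH H) r.2 J T R Y hM hdvd hJ hT hR (B r) (hB r) (φ p.1) (hφ p.1)
            (fun x hx => hsφ p.1 x hx) ((r.1 : ℤ) * y)) (abs_nonneg _)
      _ = (∑ y ∈ XX R Y, |ψ p.2 y|) * (2 * Y / J) := by rw [Finset.sum_mul]
      _ ≤ Y * (2 * Y / J) := mul_le_mul_of_nonneg_right (hψs _) (by positivity)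
  have e1 : ∀ r ∈ RR F, ∑ x ∈ XX R Y, ∑ y ∈ XX R Y, (B r ((r.2 : ℤ) * x - (r.1 : ℤ) * y) -
      PG (MH H ^ 2) T B r ((r.2 : ℤ) * x - (r.1 : ℤ) * y)) *
      gr F (fun i x => sm (MH H) (J * MH H * T) (φ i) x) ψ r x y =
      ∑ p ∈ (FF F).filter (fun p => rp p.1 p.2 = r), ∑ x ∈ XX R Y, ∑ y ∈ XX R Y, (B r ((r.2 : ℤ) * x - (r.1 : ℤ) * y) -
      PG (MH H ^ 2) T B r ((r.2 : ℤ) * x - (r.1 : ℤ) * y)) * (sm (MH H) (J * MH H * T) (φ p.1) x * ψ p.2 y) := by
    intro r _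
    symm
    rw [Finset.sum_comm]
    apply Finset.sum_congr rfl
    intro x _
    rw [Finset.sum_comm]
    apply Finset.sum_congr rfl
    intro y _
    unfold gr
    rw [Finset.mul_sum]
  rw [Finset.sum_congr rfl e1]
  refine (Finset.abs_sum_le_sum_abs _ _).trans ?_
  have h4 : ∀ r ∈ RR F, |∑ p ∈ (FF F).filter (fun p => rp p.1 p.2 = r), ∑ x ∈ XX R Y, ∑ y ∈ XX R Y, (B r ((r.2 : ℤ) * x - (r.1 : ℤ) * y) -
      PG (MH H ^ 2) T B r ((r.2 : ℤ) * x - (r.1 : ℤ) * y)) * (sm (MH H) (J * MH H * T) (φ p.1) x * ψ p.2 y)| ≤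
      ∑ p ∈ (FF F).filter (fun p => rp p.1 p.2 = r), (Y * (2 * Y / J) : ℝ) := by
    intro r hr
    refine (Finset.abs_sum_le_sum_abs _ _).trans ?_
    exact Finset.sum_le_sum fun p _ => hone r hr p
  refine (Finset.sum_le_sum h4).trans ?_
  have h5 : ∑ r ∈ RR F, ∑ p ∈ (FF F).filter (fun p => rp p.1 p.2 = r), (Y * (2 * Y / J) : ℝ) =
      ∑ p ∈ FF F, (Y * (2 * Y / J) : ℝ) := by
    apply Finset.sum_fiberwise_of_maps_to
    intro p hp
    unfold RR
    exact Finset.mem_image_of_mem _ hp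
  rw [h5, Finset.sum_const, nsmul_eq_mul]
  have h6 : 2 * (#(FF F) : ℝ) ≤ (#F : ℝ) ^ 2 := by exact_mod_cast GSD_count F
  calc (#(FF F) : ℝ) * (Y * (2 * Y / J)) = (2 * (#(FF F) : ℝ)) * ((Y : ℝ) ^ 2 / J) := by ring
    _ ≤ (#F : ℝ) ^ 2 * ((Y : ℝ) ^ 2 / J) := mul_le_mul_of_nonneg_right h6 (by positivity)
    _ = (#F : ℝ) ^ 2 * (Y : ℝ) ^ 2 / J := by ring

end Pool.Agent.OM
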